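import Mathlib

/-!
# Galois groups with infinitely many independent quadratic characters are not finitely generated
-/

set_option autoImplicit false

namespace Pool.Agent.helper68.PAC

variable {K : Type*} [Field K]

theorem mem_bot_of_fixed (T : Set (Gal(SeparableClosure K/K)))
    (hT : (Subgroup.closure T).topologicalClosure = ⊤) {a : SeparableClosure K}
    (ha : ∀ g ∈ T, g a = a) : ∃ k : K, algebraMap K (SeparableClosure K) k = a := by
  have h1 : a ∈ (⊥ : IntermediateField K (SeparableClosure K)) := by
    rw [InfiniteGalois.mem_bot_iff_fixed]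
    intro f
    let L : IntermediateField K (SeparableClosure K) := IntermediateField.adjoin K {a}
    have h2 : ∀ g ∈ T, g ∈ L.fixingSubgroup := by
      intro g hgT
      rw [IntermediateField.mem_fixingSubgroup_iff]
      intro x hx
      have h3 : L ≤ IntermediateField.fixedField (Subgroup.zpowers g) := by
        rw [IntermediateField.adjoin_le_iff]
        intro x hx
        rw [Set.mem_singleton_iff] at hx
        subst hx
        rintro ⟨σ, hσ⟩
        obtain ⟨n, rfl⟩ := Subgroup.mem_zpowers_iff.mp hσ
        have h4 : g ∈ MulAction.stabilizer (Gal(SeparableClosure K/K)) x := ha g hgT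
        exact (MulAction.stabilizer (Gal(SeparableClosure K/K)) x).zpow_mem h4 n
      exact h3 hx ⟨g, Subgroup.mem_zpowers g⟩
    have h5 : IsClosed (L.fixingSubgroup : Set (Gal(SeparableClosure K/K))) :=
      InfiniteGalois.fixingSubgroup_isClosed L
    have h6 : (Subgroup.closure T).topologicalClosure ≤ L.fixingSubgroup :=
      Subgroup.topologicalClosure_minimal _ ((Subgroup.closure_le _).mpr h2) h5
    rw [hT] at h6
    have h7 := h6 (Subgroup.mem_top f)
    rw [IntermediateField.mem_fixingSubgroup_iff] at h7
    exact h7 a (IntermediateField.mem_adjoin_simple_self K a)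
  exact IntermediateField.mem_bot.mp h1

theorem not_isSquare_mul {p q : ℕ} (hp : p.Prime) (hq : q.Prime) (hpq : p ≠ q) :
    ¬ IsSquare (p * q) := by
  rintro ⟨r, hr⟩
  have h1 : p ∣ r * r := hr ▸ dvd_mul_right p q
  have h2 : p ∣ r := (hp.dvd_mul.mp h1).elim id id
  obtain ⟨s, rfl⟩ := h2
  have h3 : q = p * (s * s) := by
    apply Nat.eq_of_mul_eq_mul_left hp.pos
    rw [hr]
    ring
  have h4 : p ∣ q := ⟨_, h3⟩
  exact hpq ((Nat.prime_dvd_prime_iff_eq hp hq).mp h4)

/-- If no natural number that is not a square has a square root in `K`, then the absolute Galois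
group of `K` is not topologically finitely generated. -/
theorem not_finitely_generated [NeZero (2 : K)]
    (hK : ∀ n : ℕ, ¬ IsSquare n → ∀ x : K, x ^ 2 ≠ (n : K))
    (T : Set (Gal(SeparableClosure K/K))) (hTf : T.Finite) :
    (Subgroup.closure T).topologicalClosure ≠ ⊤ := by
  intro hT
  have hz : NeZero (2 : SeparableClosure K) := by
    constructor
    have := (map_ne_zero (algebraMap K (SeparableClosure K))).mpr (NeZero.ne (2 : K))
    rwa [map_ofNat] at this
  choose r hr using fun p : Nat.Primes =>
    IsSepClosed.exists_eq_mul_self ((p : ℕ) : SeparableClosure K)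
  have : Finite T := hTf
  obtain ⟨p, q, hpq, heq⟩ := Finite.exists_ne_map_eq_of_infinite
    (fun p : Nat.Primes => {t : T | (t : Gal(SeparableClosure K/K)) (r p) = r p})
  have sgn : ∀ (p : Nat.Primes) (t : T), (t : Gal(SeparableClosure K/K)) (r p) = r p ∨
      (t : Gal(SeparableClosure K/K)) (r p) = -r p := by
    intro p t
    have h1 : (t : Gal(SeparableClosure K/K)) (r p) * (t : Gal(SeparableClosure K/K)) (r p) =
        r p * r p := by
      rw [← map_mul, ← hr, map_natCast]
    exact mul_self_eq_mul_self_iff.mp h1
  have hfix : ∀ g ∈ T, g (r p * r q) = r p * r q := by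
    intro g hg
    have h1 : (g (r p) = r p) ↔ (g (r q) = r q) := by
      have := Set.ext_iff.mp heq ⟨g, hg⟩
      exact this
    rw [map_mul]
    rcases sgn p ⟨g, hg⟩ with hp | hp
    · have hp' : g (r p) = r p := hp
      rw [hp', h1.mp hp']
    · rcases sgn q ⟨g, hg⟩ with hq | hq
      · have hq' : g (r q) = r q := hq
        rw [hq', h1.mpr hq']
      · have hp' : g (r p) = -r p := hp
        have hq' : g (r q) = -r q := hq
        rw [hp', hq', neg_mul_neg]
  obtain ⟨k, hk⟩ := mem_bot_of_fixed T hT hfix
  apply hK _ (not_isSquare_mul p.2 q.2 fun h => hpq (Subtype.ext h)) k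
  apply (algebraMap K (SeparableClosure K)).injective
  rw [map_pow, map_natCast, hk]
  push_cast
  rw [hr p, hr q]
  ring

end Pool.Agent.helper68.PAC
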