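import Mathlib

/-!
# Embedding countable extensions of a countable subfield of the complex numbers
-/

set_option autoImplicit false

open Cardinal

namespace Pool.Agent.helper68.PAC

/-- A countable field extension of a countable field embeds into `ℂ`, over the base. -/
theorem exists_embedding (L F : Type) [Field L] [Field F] [Algebra L F] [Algebra L ℂ]
    [Countable L] [Countable F] : Nonempty (F →ₐ[L] ℂ) := by
  obtain ⟨s, hs⟩ := exists_isTranscendenceBasis L F
  obtain ⟨t, ht⟩ := exists_isTranscendenceBasis L ℂ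
  have hC : ℵ₀ < #ℂ := by
    rw [mk_complex]
    exact aleph0_lt_continuum
  have hL : #L ≤ ℵ₀ := mk_le_aleph0
  have ht2 : #ℂ = #t := by
    have := IsAlgClosed.cardinal_eq_cardinal_transcendence_basis_of_aleph0_lt' _ ht hL hC
    exact this
  have hst : #s ≤ #t := by
    rw [← ht2]
    exact (mk_le_aleph0 (α := s)).trans hC.le
  obtain ⟨j⟩ := hst
  have hj : AlgebraicIndependent L (fun i : s => ((j i : t) : ℂ)) :=
    ht.1.comp j j.injective
  let A := Algebra.adjoin L (Set.range (Subtype.val : s → F))
  let ψ : A →ₐ[L] ℂ := (MvPolynomial.aeval (fun i : s => ((j i : t) : ℂ))).comp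
    (hs.1.aevalEquiv.symm : A ≃ₐ[L] MvPolynomial s L).toAlgHom
  have hψ : Function.Injective ψ := by
    have h1 : Function.Injective (MvPolynomial.aeval (R := L) (fun i : s => ((j i : t) : ℂ))) := hj
    exact h1.comp hs.1.aevalEquiv.symm.injective
  letI : Algebra A ℂ := ψ.toRingHom.toAlgebra
  haveI : IsScalarTower L A ℂ := IsScalarTower.of_algebraMap_eq fun x => by
    change algebraMap L ℂ x = ψ (algebraMap L A x)
    rw [ψ.commutes]
  haveI : FaithfulSMul A ℂ := (faithfulSMul_iff_algebraMap_injective A ℂ).mpr hψ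
  haveI : Algebra.IsAlgebraic A F := hs.isAlgebraic
  exact ⟨(IsAlgClosed.lift (R := A) (S := F) (M := ℂ)).restrictScalars L⟩

end Pool.Agent.helper68.PAC
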