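import Mathlib
import Pool.Agent.helper68.PAC.Embed

/-!
# One step of the tower: adding a generic zero of a geometrically prime system
-/

set_option autoImplicit false

open Cardinal MvPolynomial

namespace Pool.Agent.helper68.PAC

/-- countable subfields of `ℂ` which contain no square root of a natural number that is not a
square -/
def Good (L : Subfield ℂ) : Prop :=
  Countable L ∧ ∀ n : ℕ, ¬ IsSquare n → ∀ x ∈ L, x ^ 2 ≠ (n : ℂ)

section Coeff

variable {L : Subfield ℂ} {m : ℕ}

/-- apply a linear form to the coefficients -/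
noncomputable def lam (l : ℂ →ₗ[L] L) (f : MvPolynomial (Fin m) ℂ) : MvPolynomial (Fin m) L :=
  ∑ e ∈ f.support, monomial e (l (coeff e f))

theorem coeff_lam (l : ℂ →ₗ[L] L) (f : MvPolynomial (Fin m) ℂ) (e : Fin m →₀ ℕ) :
    coeff e (lam l f) = l (coeff e f) := by
  classical
  unfold lam
  rw [coeff_sum]
  simp only [coeff_monomial]
  rw [Finset.sum_ite_eq']
  split_ifs with h
  · rfl
  · rw [notMem_support_iff.mp h, map_zero]

theorem lam_add (l : ℂ →ₗ[L] L) (f g : MvPolynomial (Fin m) ℂ) :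
    lam l (f + g) = lam l f + lam l g := by
  ext e
  simp only [coeff_lam, coeff_add, map_add]

theorem lam_mul (l : ℂ →ₗ[L] L) (f : MvPolynomial (Fin m) ℂ) (g : MvPolynomial (Fin m) L) :
    lam l (f * map L.subtype g) = lam l f * g := by
  classical
  ext e
  rw [coeff_lam, coeff_mul, coeff_mul, map_sum]
  congr 1
  refine Finset.sum_congr rfl fun x _ => ?_
  rw [coeff_map, coeff_lam]
  have h : coeff x.1 f * L.subtype (coeff x.2 g) = coeff x.2 g • coeff x.1 f := by
    rw [mul_comm]
    rfl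
  rw [h, map_smul, smul_eq_mul, mul_comm]

theorem lam_mem_aux (l : ℂ →ₗ[L] L) {S : Set (MvPolynomial (Fin m) ℂ)}
    (hS : ∀ f ∈ S, ∃ g : MvPolynomial (Fin m) L, map L.subtype g = f)
    {f : MvPolynomial (Fin m) ℂ} (hf : f ∈ Ideal.span S) :
    ∀ a, map L.subtype (lam l (a * f)) ∈ Ideal.span S := by
  induction hf using Submodule.span_induction with
  | mem x hx =>
    intro a
    obtain ⟨g, hg⟩ := hS x hx
    rw [← hg, lam_mul, map_mul, hg]
    exact Ideal.mul_mem_left _ _ (Ideal.subset_span hx)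
  | zero =>
    intro a
    have : lam l (0 : MvPolynomial (Fin m) ℂ) = 0 := by
      unfold lam
      simp
    rw [mul_zero, this, map_zero]
    exact Ideal.zero_mem _
  | add x y _ _ hx hy =>
    intro a
    rw [mul_add, lam_add, map_add]
    exact Ideal.add_mem _ (hx a) (hy a)
  | smul b x _ hx =>
    intro a
    rw [smul_eq_mul, ← mul_assoc]
    exact hx (a * b)

theorem lam_mem (l : ℂ →ₗ[L] L) {S : Set (MvPolynomial (Fin m) ℂ)}
    (hS : ∀ f ∈ S, ∃ g : MvPolynomial (Fin m) L, map L.subtype g = f)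
    {f : MvPolynomial (Fin m) ℂ} (hf : f ∈ Ideal.span S) :
    map L.subtype (lam l f) ∈ Ideal.span S := by
  have := lam_mem_aux l hS hf 1
  rwa [one_mul] at this

/-- a linear form with `l 1 = 0` and `l c = 1` -/
theorem exists_form {c : ℂ} (hc : c ∉ L) : ∃ l : ℂ →ₗ[L] L, l 1 = 0 ∧ l c = 1 := by
  let f : L × L →ₗ[L] ℂ := (LinearMap.toSpanSingleton L ℂ (1 : ℂ)).coprod
    (LinearMap.toSpanSingleton L ℂ c)
  have hf : ∀ x, f x = (x.1 : ℂ) * 1 + (x.2 : ℂ) * c := fun x => rfl
  have hinj : LinearMap.ker f = ⊥ := by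
    rw [LinearMap.ker_eq_bot']
    rintro ⟨a, b⟩ hab
    rw [hf] at hab
    have hb : b = 0 := by
      by_contra hb
      apply hc
      have h2 : (b : ℂ) ≠ 0 := fun h => hb (Subtype.ext h)
      have h3 : c = -(a : ℂ) / b := by
        field_simp
        linear_combination hab
      rw [h3]
      exact L.div_mem (L.neg_mem a.2) b.2
    subst hb
    have ha : a = 0 := Subtype.ext (by simpa using hab)
    rw [ha]
    rfl
  obtain ⟨g, hg⟩ := f.exists_leftInverse_of_injective hinj
  refine ⟨(LinearMap.snd L L L).comp g, ?_, ?_⟩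
  · have h1 : f (1, 0) = 1 := by
      rw [hf]
      simp
    have h2 : g (f (1, 0)) = (1, 0) := LinearMap.congr_fun hg (1, 0)
    rw [LinearMap.comp_apply, ← h1, h2]
    rfl
  · have h1 : f (0, 1) = c := by
      rw [hf]
      simp
    have h2 : g (f (0, 1)) = (0, 1) := LinearMap.congr_fun hg (0, 1)
    rw [LinearMap.comp_apply, ← h1, h2]
    rfl

theorem lam_map (l : ℂ →ₗ[L] L) (hl : l 1 = 0) (g : MvPolynomial (Fin m) L) :
    lam l (map L.subtype g) = 0 := by
  ext e
  rw [coeff_lam, coeff_map]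
  have h : L.subtype (coeff e g) = coeff e g • (1 : ℂ) := (mul_one _).symm
  rw [h, map_smul, hl, smul_zero, coeff_zero]

theorem lam_C_mul_map (l : ℂ →ₗ[L] L) {c : ℂ} (hl : l c = 1) (g : MvPolynomial (Fin m) L) :
    lam l (C c * map L.subtype g) = g := by
  ext e
  rw [coeff_lam, coeff_C_mul, coeff_map]
  have h : c * L.subtype (coeff e g) = coeff e g • c := mul_comm _ _
  rw [h, map_smul, hl, smul_eq_mul, mul_one]

/-- if `c ∉ L` and `a + c b` is in an ideal defined over `L`, so is `b` -/
theorem mem_of_add_C_mul {S : Set (MvPolynomial (Fin m) ℂ)}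
    (hS : ∀ f ∈ S, ∃ g : MvPolynomial (Fin m) L, map L.subtype g = f) {c : ℂ} (hc : c ∉ L)
    {a b : MvPolynomial (Fin m) L}
    (h : map L.subtype a + C c * map L.subtype b ∈ Ideal.span S) :
    map L.subtype b ∈ Ideal.span S := by
  obtain ⟨l, hl1, hlc⟩ := exists_form hc
  have := lam_mem l hS h
  rwa [lam_add, lam_map l hl1, lam_C_mul_map l hlc, zero_add] at this

end Coeff

theorem countable_mvPolynomial (m : ℕ) (R : Type) [CommRing R] [Countable R] :
    Countable (MvPolynomial (Fin m) R) := by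
  rw [← Cardinal.mk_le_aleph0_iff]
  exact MvPolynomial.cardinalMk_le_max.trans
    (max_le (max_le Cardinal.mk_le_aleph0 Cardinal.mk_le_aleph0) le_rfl)

theorem countable_fractionRing (A : Type) [CommRing A] [Countable A] :
    Countable (FractionRing A) := by
  have hs : Function.Surjective (fun p : A × nonZeroDivisors A =>
      (IsLocalization.mk' (FractionRing A) p.1 p.2 : FractionRing A)) := by
    intro z
    obtain ⟨x, y, h⟩ := IsLocalization.exists_mk'_eq (nonZeroDivisors A) z
    exact ⟨(x, y), h⟩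
  exact hs.countable

theorem step_core {L : Subfield ℂ} (hL : Good L) {m : ℕ} (S : Set (MvPolynomial (Fin m) ℂ))
    (hS : ∀ f ∈ S, ∃ g : MvPolynomial (Fin m) L, map L.subtype g = f)
    (hp : (Ideal.span S).IsPrime) (A : Type) [CommRing A] [IsDomain A] [Algebra L A]
    (q : MvPolynomial (Fin m) L →ₐ[L] A) (hq : Function.Surjective q)
    (hker : ∀ g, q g = 0 ↔ map L.subtype g ∈ Ideal.span S) :
    ∃ L' : Subfield ℂ, L ≤ L' ∧ Good L' ∧ ∃ z : Fin m → ℂ, (∀ i, z i ∈ L') ∧
      ∀ f ∈ S, eval z f = 0 := by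
  have : Countable L := hL.1
  have : Countable (MvPolynomial (Fin m) L) := countable_mvPolynomial m L
  have : Countable A := hq.countable
  have : Countable (FractionRing A) := countable_fractionRing A
  obtain ⟨φ⟩ := exists_embedding L (FractionRing A)
  let ψ : MvPolynomial (Fin m) L →ₐ[L] ℂ :=
    (φ.comp (IsScalarTower.toAlgHom L A (FractionRing A))).comp q
  have hψ : ∀ g, ψ g = φ (algebraMap A (FractionRing A) (q g)) := fun g => rfl
  refine ⟨φ.toRingHom.fieldRange, ?_, ⟨?_, ?_⟩, fun i => ψ (X i), ?_, ?_⟩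
  · intro x hx
    exact ⟨algebraMap L (FractionRing A) ⟨x, hx⟩, φ.commutes ⟨x, hx⟩⟩
  · exact (Set.countable_range φ).to_subtype
  · rintro n hn x ⟨y, rfl⟩ hxd
    obtain ⟨c, hc⟩ : ∃ c : ℂ, c ^ 2 = (n : ℂ) := IsAlgClosed.exists_pow_nat_eq _ (by norm_num)
    have hcL : c ∉ L := fun h => hL.2 n hn c h hc
    have hcL' : -c ∉ L := fun h => hL.2 n hn (-c) h (by rw [neg_sq, hc])
    obtain ⟨a, b, hb, rfl⟩ := IsFractionRing.div_surjective (A := A) y
    obtain ⟨a, rfl⟩ := hq a
    obtain ⟨b, rfl⟩ := hq b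
    have hb0 : map L.subtype b ∉ Ideal.span S := by
      intro h
      exact nonZeroDivisors.ne_zero hb ((hker b).mpr h)
    have h1 : q (a ^ 2 - (n : MvPolynomial (Fin m) L) * b ^ 2) = 0 := by
      have hb1 : algebraMap A (FractionRing A) (q b) ≠ 0 :=
        IsFractionRing.to_map_ne_zero_of_mem_nonZeroDivisors hb
      have hxd' : φ (algebraMap A (FractionRing A) (q a) / algebraMap A (FractionRing A) (q b)) ^ 2
        = n := hxd
      rw [map_div₀] at hxd'
      have hb2 : φ (algebraMap A (FractionRing A) (q b)) ≠ 0 := (map_ne_zero φ).mpr hb1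
      rw [div_pow, div_eq_iff (pow_ne_zero 2 hb2)] at hxd'
      apply IsFractionRing.injective A (FractionRing A)
      apply (RingHom.injective (φ : FractionRing A →+* ℂ))
      simp only [map_sub, map_mul, map_pow, map_natCast, map_zero]
      exact sub_eq_zero.mpr hxd'
    have h2 : (map L.subtype a + C c * map L.subtype b) *
        (map L.subtype a + C (-c) * map L.subtype b) ∈ Ideal.span S := by
      have h3 := (hker _).mp h1
      have h4 : (map L.subtype a + C c * map L.subtype b) *
        (map L.subtype a + C (-c) * map L.subtype b) = map L.subtype (a ^ 2 - (n : MvPolynomial (Fin m) L) * b ^ 2) := by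
        simp only [map_sub, map_mul, map_pow, map_natCast, map_neg]
        have h5 : (C c : MvPolynomial (Fin m) ℂ) ^ 2 = (n : MvPolynomial (Fin m) ℂ) := by
          rw [← map_pow, hc, map_natCast]
        linear_combination (-(map L.subtype b ^ 2)) * h5
      rw [h4]
      exact h3
    rcases hp.mem_or_mem h2 with h | h
    · exact hb0 (mem_of_add_C_mul hS hcL h)
    · exact hb0 (mem_of_add_C_mul hS hcL' h)
  · intro i
    exact ⟨_, rfl⟩
  · intro f hf
    obtain ⟨g, rfl⟩ := hS f hf
    rw [eval_map]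
    have h1 : eval₂Hom L.subtype (fun i => ψ (X i)) = ψ.toRingHom := by
      apply MvPolynomial.ringHom_ext
      · intro r
        rw [coe_eval₂Hom, eval₂_C]
        exact (ψ.commutes r).symm
      · intro i
        rw [coe_eval₂Hom, eval₂_X]
        rfl
    have h2 : ψ g = 0 := by
      rw [hψ, (hker g).mpr (Ideal.subset_span hf), map_zero, map_zero]
    rw [← h2]
    exact RingHom.congr_fun h1 g

/-- **One step.** -/
theorem step {L : Subfield ℂ} (hL : Good L) {m : ℕ} (S : Set (MvPolynomial (Fin m) ℂ))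
    (hS : ∀ f ∈ S, ∃ g : MvPolynomial (Fin m) L, map L.subtype g = f)
    (hp : (Ideal.span S).IsPrime) :
    ∃ L' : Subfield ℂ, L ≤ L' ∧ Good L' ∧ ∃ z : Fin m → ℂ, (∀ i, z i ∈ L') ∧
      ∀ f ∈ S, eval z f = 0 := by
  have hJ : ((Ideal.span S).comap (map L.subtype)).IsPrime := Ideal.comap_isPrime _ _
  exact step_core hL S hS hp (MvPolynomial (Fin m) L ⧸ (Ideal.span S).comap (map L.subtype))
    (Ideal.Quotient.mkₐ L _) (Ideal.Quotient.mkₐ_surjective L _)
    fun g => by rw [Ideal.Quotient.mkₐ_eq_mk, Ideal.Quotient.eq_zero_iff_mem]; rfl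

end Pool.Agent.helper68.PAC
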