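import Mathlib
import Pool.Agent.helper68.PAC.Step

/-!
# The tower
-/

set_option autoImplicit false

open Cardinal MvPolynomial

namespace Pool.Agent.helper68.PAC

/-- finite systems of polynomial equations over `ℂ` -/
abbrev Task : Type := Σ m : ℕ, Finset (MvPolynomial (Fin m) ℂ)

/-- the system has coefficients in `L` and generates a prime ideal over `ℂ` -/
def Over (L : Subfield ℂ) (t : Task) : Prop :=
  (∀ f ∈ t.2, ∀ e, coeff e f ∈ L) ∧ (Ideal.span (t.2 : Set (MvPolynomial (Fin t.1) ℂ))).IsPrime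

/-- the system has a solution in `L` -/
def Sol (L : Subfield ℂ) (t : Task) : Prop :=
  ∃ z : Fin t.1 → ℂ, (∀ i, z i ∈ L) ∧ ∀ f ∈ t.2, eval z f = 0

theorem Over.mono {L L' : Subfield ℂ} (h : L ≤ L') {t : Task} (ht : Over L t) : Over L' t :=
  ⟨fun f hf e => h (ht.1 f hf e), ht.2⟩

theorem Sol.mono {L L' : Subfield ℂ} (h : L ≤ L') {t : Task} (ht : Sol L t) : Sol L' t := by
  obtain ⟨z, hz, hz'⟩ := ht
  exact ⟨z, fun i => h (hz i), hz'⟩

theorem exists_map {L : Subfield ℂ} {m : ℕ} {f : MvPolynomial (Fin m) ℂ}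
    (h : ∀ e, coeff e f ∈ L) : ∃ g : MvPolynomial (Fin m) L, map L.subtype g = f := by
  classical
  refine ⟨∑ e ∈ f.support, monomial e ⟨coeff e f, h e⟩, ?_⟩
  rw [map_sum]
  conv_rhs => rw [f.as_sum]
  refine Finset.sum_congr rfl fun e _ => ?_
  rw [map_monomial]
  rfl

/-- a task over a good field is solved in a larger good field -/
theorem step_task {L : Subfield ℂ} (hL : Good L) {t : Task} (ht : Over L t) :
    ∃ L', L ≤ L' ∧ Good L' ∧ Sol L' t := by
  obtain ⟨L', h1, h2, z, h3, h4⟩ := step hL (t.2 : Set (MvPolynomial (Fin t.1) ℂ))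
    (fun f hf => exists_map (ht.1 f hf)) ht.2
  exact ⟨L', h1, h2, z, h3, fun f hf => h4 f hf⟩

theorem countable_over {L : Subfield ℂ} (hL : Countable L) : {t | Over L t}.Countable := by
  classical
  have h1 : Countable (Σ m : ℕ, Finset (MvPolynomial (Fin m) L)) := by
    have : ∀ m, Countable (MvPolynomial (Fin m) L) := fun m => countable_mvPolynomial m L
    infer_instance
  let F : (Σ m : ℕ, Finset (MvPolynomial (Fin m) L)) → Task :=
    fun t => ⟨t.1, t.2.image (map L.subtype)⟩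
  refine (Set.countable_range F).mono ?_
  rintro ⟨m, S⟩ ht
  choose g hg using fun f : S => exists_map (ht.1 f.1 f.2)
  refine ⟨⟨m, Finset.univ.image g⟩, ?_⟩
  change (⟨m, (Finset.univ.image g).image (map L.subtype)⟩ : Task) = ⟨m, S⟩
  congr 1
  ext f
  simp only [Finset.mem_image, Finset.mem_univ, true_and, exists_exists_eq_and]
  constructor
  · rintro ⟨a, rfl⟩
    rw [hg]
    exact a.2
  · intro hf
    exact ⟨⟨f, hf⟩, hg _⟩

theorem mem_iSup_iff {s : ℕ → Subfield ℂ} (hs : Monotone s) {x : ℂ} :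
    x ∈ ⨆ n, s n ↔ ∃ n, x ∈ s n :=
  Subfield.mem_iSup_of_directed hs.directed_le

theorem good_iSup {s : ℕ → Subfield ℂ} (hs : Monotone s) (h : ∀ n, Good (s n)) :
    Good (⨆ n, s n) := by
  constructor
  · have h1 : ((⨆ n, s n : Subfield ℂ) : Set ℂ) = ⋃ n, (s n : Set ℂ) := by
      ext x
      simp only [SetLike.mem_coe, Set.mem_iUnion]
      exact mem_iSup_iff hs
    have h2 : ((⨆ n, s n : Subfield ℂ) : Set ℂ).Countable := by
      rw [h1]
      exact Set.countable_iUnion fun n => (h n).1.to_set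
    exact h2.to_subtype
  · intro d hd x hx
    obtain ⟨n, hn⟩ := (mem_iSup_iff hs).mp hx
    exact (h n).2 d hd x hn

theorem over_iSup {s : ℕ → Subfield ℂ} (hs : Monotone s) {t : Task} (h : Over (⨆ n, s n) t) :
    ∃ n, Over (s n) t := by
  classical
  have h1 : ∀ f ∈ t.2, ∃ n, ∀ e, coeff e f ∈ s n := by
    intro f hf
    have h2 : ∀ e, ∃ n, coeff e f ∈ s n := fun e => (mem_iSup_iff hs).mp (h.1 f hf e)
    choose n hn using h2
    refine ⟨f.support.sup n, fun e => ?_⟩
    by_cases he : e ∈ f.support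
    · exact hs (Finset.le_sup he) (hn e)
    · rw [notMem_support_iff.mp he]
      exact (s _).zero_mem
  choose! n hn using h1
  exact ⟨t.2.sup n, fun f hf e => hs (Finset.le_sup hf) (hn f hf e), h.2⟩

/-- all tasks over a good field are solved in a larger good field -/
theorem stage {L : Subfield ℂ} (hL : Good L) : ∃ L', L ≤ L' ∧ Good L' ∧
    ∀ t, Over L t → Sol L' t := by
  classical
  rcases Set.eq_empty_or_nonempty {t | Over L t} with hemp | hne
  · refine ⟨L, le_rfl, hL, fun t ht => ?_⟩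
    have : t ∈ ({t | Over L t} : Set Task) := ht
    rw [hemp] at this
    exact absurd this (Set.notMem_empty t)
  obtain ⟨e, he⟩ := (countable_over hL.1).exists_eq_range hne
  have hs : ∀ (k : ℕ) (M : {M : Subfield ℂ // L ≤ M ∧ Good M}),
      ∃ M' : {M : Subfield ℂ // L ≤ M ∧ Good M}, M.1 ≤ M'.1 ∧ Sol M'.1 (e k) := by
    rintro k ⟨M, hLM, hM⟩
    have h1 : Over L (e k) := by
      have : e k ∈ ({t | Over L t} : Set Task) := by
        rw [he]
        exact ⟨k, rfl⟩
      exact this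
    obtain ⟨M', h2, h3, h4⟩ := step_task hM (h1.mono hLM)
    exact ⟨⟨M', hLM.trans h2, h3⟩, h2, h4⟩
  choose nxt hn1 hn2 using hs
  let s : ℕ → {M : Subfield ℂ // L ≤ M ∧ Good M} := fun n => Nat.rec ⟨L, le_rfl, hL⟩ nxt n
  have hmono : Monotone fun n => (s n).1 := monotone_nat_of_le_succ fun n => hn1 n (s n)
  refine ⟨⨆ n, (s n).1, le_iSup_of_le 0 le_rfl, good_iSup hmono fun n => (s n).2.2, ?_⟩
  intro t ht
  have : t ∈ Set.range e := by
    rw [← he]
    exact ht
  obtain ⟨k, rfl⟩ := this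
  exact (hn2 k (s k)).mono (le_iSup (fun n => (s n).1) (k + 1))

theorem rat_sq_ne {n : ℕ} (hn : ¬ IsSquare n) (r : ℚ) : (r : ℂ) ^ 2 ≠ (n : ℂ) := by
  intro h
  have h1 : r ^ 2 = (n : ℚ) := by
    apply Rat.cast_injective (α := ℂ)
    push_cast
    exact h
  have h2 : IsSquare (n : ℚ) := ⟨r, by rw [← h1, sq]⟩
  exact hn (Rat.isSquare_natCast_iff.mp h2)

theorem good_bot : Good ⊥ := by
  have hr : ∀ x ∈ (⊥ : Subfield ℂ), ∃ r : ℚ, (r : ℂ) = x := by
    intro x hx
    rw [Subfield.bot_eq_of_charZero] at hx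
    obtain ⟨r, hr⟩ := hx
    exact ⟨r, by rw [← hr]; rfl⟩
  constructor
  · have h1 : ((⊥ : Subfield ℂ) : Set ℂ) ⊆ Set.range (fun r : ℚ => (r : ℂ)) := hr
    exact ((Set.countable_range _).mono h1).to_subtype
  · intro n hn x hx
    obtain ⟨r, rfl⟩ := hr x hx
    exact rat_sq_ne hn r

/-- there is a good field in which all tasks over it are solved -/
theorem exists_pac : ∃ K : Subfield ℂ, Good K ∧ ∀ t, Over K t → Sol K t := by
  classical
  have h0 : Good ⊥ := good_bot
  have hs : ∀ M : {M : Subfield ℂ // Good M}, ∃ M' : {M : Subfield ℂ // Good M},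
      M.1 ≤ M'.1 ∧ ∀ t, Over M.1 t → Sol M'.1 t := by
    rintro ⟨M, hM⟩
    obtain ⟨M', h1, h2, h3⟩ := stage hM
    exact ⟨⟨M', h2⟩, h1, h3⟩
  choose nxt hn1 hn2 using hs
  let s : ℕ → {M : Subfield ℂ // Good M} := fun n => Nat.rec ⟨⊥, h0⟩ (fun _ => nxt) n
  have hmono : Monotone fun n => (s n).1 := monotone_nat_of_le_succ fun n => hn1 (s n)
  refine ⟨⨆ n, (s n).1, good_iSup hmono fun n => (s n).2, ?_⟩
  intro t ht
  obtain ⟨n, hn⟩ := over_iSup hmono ht
  exact (hn2 (s n) t hn).mono (le_iSup (fun n => (s n).1) (n + 1))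

end Pool.Agent.helper68.PAC
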