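import Mathlib
import Pool.Agent.helper68.PAC.Tower

/-!
# Rational points of geometrically integral algebras
-/

set_option autoImplicit false

open Cardinal MvPolynomial TensorProduct

namespace Pool.Agent.helper68.PAC

/-- a finitely generated algebra that is a domain after extension of scalars to `ℂ` has a point
over a field in which all tasks are solved -/
theorem exists_algHom {K : Subfield ℂ} (hK : ∀ t, Over K t → Sol K t) (A : Type) [CommRing A]
    [Algebra K A] [Algebra.FiniteType K A] (hA : IsDomain (ℂ ⊗[K] A)) : Nonempty (A →ₐ[K] K) := by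
  classical
  obtain ⟨m, π, hπ⟩ := Algebra.FiniteType.iff_quotient_mvPolynomial''.mp
    (inferInstance : Algebra.FiniteType K A)
  obtain ⟨T, hT⟩ := IsNoetherian.noetherian (RingHom.ker π)
  let S : Finset (MvPolynomial (Fin m) ℂ) := T.image (map K.subtype)
  have hmap : (algebraMap K ℂ) = K.subtype := rfl
  let e : ℂ ⊗[K] MvPolynomial (Fin m) K ≃ₐ[ℂ] MvPolynomial (Fin m) ℂ := algebraTensorAlgEquiv K ℂ
  let Ψ : ℂ ⊗[K] MvPolynomial (Fin m) K →ₐ[K] ℂ ⊗[K] A :=
    Algebra.TensorProduct.map (AlgHom.id K ℂ) π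
  have hker : RingHom.ker Ψ = (RingHom.ker π).map
      (Algebra.TensorProduct.includeRight : MvPolynomial (Fin m) K →ₐ[K] _) :=
    Algebra.TensorProduct.lTensor_ker π hπ
  have hprime : (RingHom.ker Ψ).IsPrime := RingHom.ker_isPrime Ψ.toRingHom
  have hspan : Ideal.span (S : Set (MvPolynomial (Fin m) ℂ)) = (RingHom.ker Ψ).map e := by
    rw [hker, ← hT]
    change _ = Ideal.map e (Ideal.map _ (Ideal.span (T : Set (MvPolynomial (Fin m) K))))
    rw [Ideal.map_span, Ideal.map_span]
    congr 1
    ext f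
    simp only [S, Finset.coe_image, Set.mem_image, exists_exists_and_eq_and]
    constructor
    · rintro ⟨a, ha, rfl⟩
      refine ⟨a, ha, ?_⟩
      change e (1 ⊗ₜ a) = _
      rw [algebraTensorAlgEquiv_tmul, one_smul]
      rfl
    · rintro ⟨a, ha, rfl⟩
      refine ⟨a, ha, ?_⟩
      change _ = e (1 ⊗ₜ a)
      rw [algebraTensorAlgEquiv_tmul, one_smul]
      rfl
  have hSp : (Ideal.span (S : Set (MvPolynomial (Fin m) ℂ))).IsPrime := by
    rw [hspan]
    exact Ideal.map_isPrime_of_equiv e
  have hover : Over K ⟨m, S⟩ := by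
    refine ⟨?_, hSp⟩
    intro f hf ex
    obtain ⟨g, _, rfl⟩ := Finset.mem_image.mp hf
    rw [coeff_map]
    exact (coeff ex g).2
  obtain ⟨z, hz, hz'⟩ := hK _ hover
  let ev : MvPolynomial (Fin m) K →ₐ[K] K := aeval fun i => (⟨z i, hz i⟩ : K)
  have hev : ∀ g, ((ev g : K) : ℂ) = eval z (map K.subtype g) := by
    intro g
    rw [eval_map]
    have h1 : (K.subtype.comp ev.toRingHom) = eval₂Hom K.subtype z := by
      apply MvPolynomial.ringHom_ext
      · intro r
        rw [coe_eval₂Hom, eval₂_C]
        change ((ev (C r) : K) : ℂ) = _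
        rw [show ev (C r) = r from aeval_C _ _]
        rfl
      · intro i
        rw [coe_eval₂Hom, eval₂_X]
        change ((ev (X i) : K) : ℂ) = _
        rw [show ev (X i) = ⟨z i, hz i⟩ from aeval_X _ _]
    exact RingHom.congr_fun h1 g
  have hkill : ∀ g ∈ RingHom.ker π, ev g = 0 := by
    intro g hg
    have h1 : RingHom.ker π ≤ RingHom.ker ev := by
      rw [← hT]
      apply Submodule.span_le.mpr
      intro g hg
      have h2 := hz' (map K.subtype g) (Finset.mem_image_of_mem _ hg)
      rw [← hev] at h2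
      exact Subtype.ext h2
    exact h1 hg
  exact ⟨AlgHom.liftOfSurjective π hπ ev hkill⟩

end Pool.Agent.helper68.PAC
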