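import Mathlib
import Pool.Agent.helper68.PAC.Alg

/-!
# Rational points of geometrically integral schemes
-/

set_option autoImplicit false

open CategoryTheory CategoryTheory.Limits AlgebraicGeometry TensorProduct

namespace Pool.Agent.helper68.PAC

/-- A scheme locally of finite type and geometrically integral over a field in which all tasks are
solved has a rational point. -/
theorem exists_section {K : Subfield ℂ} (hK : ∀ t, Over K t → Sol K t) (X : Scheme.{0})
    (f : X ⟶ Spec (.of K)) [LocallyOfFiniteType f] [GeometricallyIntegral f] :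
    ∃ s : Spec (.of K) ⟶ X, s ≫ f = 𝟙 _ := by
  -- a nonempty affine open subset
  obtain ⟨x⟩ : Nonempty X := by
    obtain ⟨y⟩ : Nonempty (Spec (.of K) : Scheme.{0}) := inferInstance
    obtain ⟨x, _⟩ := f.surjective y
    exact ⟨x⟩
  obtain ⟨R, j, hj, y, rfl⟩ := Scheme.exists_Spec_apply_eq x
  obtain ⟨φ, hφ⟩ := Spec.map_surjective (j ≫ f)
  algebraize [φ.hom]
  have hft : LocallyOfFiniteType (Spec.map φ) := by
    rw [hφ]
    infer_instance
  have hft' : Algebra.FiniteType K R := by
    have h1 : φ.hom.FiniteType := (HasRingHomProperty.Spec_iff (P := @LocallyOfFiniteType)).mp hft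
    exact h1
  have hdom : IsDomain (ℂ ⊗[K] R) := by
    let c : Spec (.of ℂ) ⟶ Spec (.of K) := Spec.map (CommRingCat.ofHom (algebraMap K ℂ))
    have h1 : IsIntegral (pullback f c) :=
      GeometricallyIntegral.geometrically_isIntegral (f := f) c _ _ (.of_hasPullback _ _)
    let o : pullback (j ≫ f) c ⟶ pullback f c :=
      (pullbackRightPullbackFstIso f c j).inv ≫ pullback.snd j (pullback.fst f c)
    have hφ' : Spec.map (CommRingCat.ofHom (algebraMap K R)) = j ≫ f := hφ
    let o' : Spec (.of (R ⊗[K] ℂ)) ⟶ pullback f c :=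
      (pullbackSpecIso K R ℂ).inv ≫ (pullback.congrHom hφ' rfl).hom ≫ o
    have h2 : IsOpenImmersion o' := inferInstance
    have hRn : Nontrivial R := by
      have : Nonempty (PrimeSpectrum R) := ⟨y⟩
      exact PrimeSpectrum.nonempty_iff_nontrivial.mp this
    have hn : Nontrivial (R ⊗[K] ℂ) := inferInstance
    have h3 : Nonempty (Spec (.of (R ⊗[K] ℂ)) : Scheme.{0}) :=
      PrimeSpectrum.nonempty_iff_nontrivial.mpr hn
    have h4 : IsIntegral (Spec (.of (R ⊗[K] ℂ))) := isIntegral_of_isOpenImmersion o'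
    have h5 : IsDomain (R ⊗[K] ℂ) := (affine_isIntegral_iff (.of (R ⊗[K] ℂ))).mp h4
    exact MulEquiv.isDomain (R ⊗[K] ℂ) (Algebra.TensorProduct.comm K ℂ R).toMulEquiv
  obtain ⟨ψ⟩ := exists_algHom hK R hdom
  refine ⟨Spec.map (CommRingCat.ofHom ψ.toRingHom) ≫ j, ?_⟩
  rw [Category.assoc, ← hφ, ← Spec.map_comp]
  have : φ ≫ CommRingCat.ofHom ψ.toRingHom = 𝟙 _ := by
    exact CommRingCat.hom_ext (RingHom.ext fun r => ψ.commutes r)
  rw [this, Spec.map_id]

end Pool.Agent.helper68.PAC
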